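import Pool.Graph.R_seed8.Y113.TA.Grp
import Pool.Graph.R_seed8.H45R2.MatVar.Gamma

/-!
# MP_c0708e_al: congruence subgroups of `GL_n` modulo ideals of bounded nil index
-/

set_option autoImplicit false

namespace Pool.Agent.Results.MP_c0708e_al.CongruenceSubgroups

open Pool.Agent.Helper429.PT Pool.Agent.H45R2.MatVar
open scoped PowerSeries.WithPiTopology commutatorElement

/-- The congruence subgroup of `GL_n(R)` modulo the ideal `J`: the kernel of
`GL_n(R) → GL_n(R / J)`. -/
def Cong (n : ℕ) {R : Type} [CommRing R] (J : Ideal R) : Subgroup (GL (Fin n) R) :=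
  (Matrix.GeneralLinearGroup.map (n := Fin n) (Ideal.Quotient.mk J)).ker

section general

variable {n : ℕ} {R : Type} [CommRing R] {J : Ideal R}

theorem mem_cong (g : GL (Fin n) R) :
    g ∈ Cong n J ↔ ∀ i j, ((g : Matrix (Fin n) (Fin n) R) - 1) i j ∈ J := by
  rw [Cong, MonoidHom.mem_ker]
  constructor
  · intro h i j
    have h1 := congrArg (fun x : GL (Fin n) (R ⧸ J) => (x : Matrix (Fin n) (Fin n) (R ⧸ J)) i j) h
    have h2 : Ideal.Quotient.mk J ((g : Matrix (Fin n) (Fin n) R) i j) =
        (1 : Matrix (Fin n) (Fin n) (R ⧸ J)) i j := h1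
    rw [← Ideal.Quotient.eq_zero_iff_mem, Matrix.sub_apply, map_sub, h2, Matrix.one_apply,
      Matrix.one_apply]
    split_ifs
    · rw [map_one, sub_self]
    · rw [map_zero, sub_self]
  · intro h
    ext i j
    have h1 := h i j
    rw [← Ideal.Quotient.eq_zero_iff_mem, Matrix.sub_apply, map_sub, sub_eq_zero] at h1
    show Ideal.Quotient.mk J ((g : Matrix (Fin n) (Fin n) R) i j) =
        (1 : Matrix (Fin n) (Fin n) (R ⧸ J)) i j
    rw [h1, Matrix.one_apply, Matrix.one_apply]
    split_ifs
    · rw [map_one]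
    · rw [map_zero]

/-! ### elementary matrices -/

theorem single_comm {r s t : Fin n} (hrs : r ≠ s) (hrt : r ≠ t) (hts : t ≠ s)
    (a b : R) :
    (1 + Matrix.single r t a) * (1 + Matrix.single t s b) * (1 - Matrix.single r t a) *
      (1 - Matrix.single t s b) = 1 + Matrix.single r s (a * b) := by
  have hxx : Matrix.single r t a * Matrix.single r t a = 0 :=
    Matrix.single_mul_single_of_ne _ _ _ _ (Ne.symm hrt) _
  have hyy : Matrix.single t s b * Matrix.single t s b = 0 :=
    Matrix.single_mul_single_of_ne _ _ _ _ (Ne.symm hts) _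
  have hyx : Matrix.single t s b * Matrix.single r t a = 0 :=
    Matrix.single_mul_single_of_ne _ _ _ _ (Ne.symm hrs) _
  have hxy : Matrix.single r t a * Matrix.single t s b = Matrix.single r s (a * b) :=
    Matrix.single_mul_single_same _ _ _ _ _
  rw [← hxy]
  generalize Matrix.single r t a = x at *
  generalize Matrix.single t s b = y at *
  have h1 : (1 + x) * (1 + y) * (1 - x) = 1 + y + x * y := by
    have : (1 + x) * (1 + y) * (1 - x) = 1 + y + x * y - x * x - y * x - x * (y * x) := by
      noncomm_ring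
    rw [this, hxx, hyx, mul_zero, sub_zero, sub_zero, sub_zero]
  rw [h1]
  have : (1 + y + x * y) * (1 - y) = 1 + x * y - y * y - x * (y * y) := by noncomm_ring
  rw [this, hyy, mul_zero, sub_zero, sub_zero]

/-- elementary matrices -/
def el {r s : Fin n} (h : r ≠ s) (a : R) : GL (Fin n) R where
  val := 1 + Matrix.single r s a
  inv := 1 - Matrix.single r s a
  val_inv := by
    have hxx : Matrix.single r s a * Matrix.single r s a = 0 :=
      Matrix.single_mul_single_of_ne _ _ _ _ (Ne.symm h) _
    have : (1 + Matrix.single r s a) * (1 - Matrix.single r s a) =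
      1 - Matrix.single r s a * Matrix.single r s a := by noncomm_ring
    rw [this, hxx, sub_zero]
  inv_val := by
    have hxx : Matrix.single r s a * Matrix.single r s a = 0 :=
      Matrix.single_mul_single_of_ne _ _ _ _ (Ne.symm h) _
    have : (1 - Matrix.single r s a) * (1 + Matrix.single r s a) =
      1 - Matrix.single r s a * Matrix.single r s a := by noncomm_ring
    rw [this, hxx, sub_zero]

theorem el_mem {r s : Fin n} (h : r ≠ s) {a : R} (ha : a ∈ J) : el h a ∈ Cong n J := by
  rw [mem_cong]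
  intro i j
  change ((1 + Matrix.single r s a : Matrix (Fin n) (Fin n) R) - 1) i j ∈ J
  rw [add_sub_cancel_left, Matrix.single_apply]
  split_ifs
  · exact ha
  · exact J.zero_mem

theorem prod_mem {l : List R} (hne : l ≠ []) (hx : ∀ x ∈ l, x ∈ J) : l.prod ∈ J := by
  obtain ⟨x, l'', rfl⟩ := List.exists_cons_of_ne_nil hne
  rw [List.prod_cons]
  exact J.mul_mem_right _ (hx x (by simp))

theorem el_mem_derived (hn : 3 ≤ n) (k : ℕ) : ∀ (l : List R),
    l.length = 2 ^ k → (∀ x ∈ l, x ∈ J) → ∀ (r s : Fin n) (h : r ≠ s)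
    (hm : el h l.prod ∈ Cong n J), (⟨el h l.prod, hm⟩ : Cong n J) ∈ derivedSeries (Cong n J) k := by
  induction k with
  | zero => intro l _ _ r s h hm; rw [derivedSeries_zero]; exact Subgroup.mem_top _
  | succ k ih =>
    intro l hl hx r s h hm
    obtain ⟨t, ht⟩ : ∃ t : Fin n, t ≠ r ∧ t ≠ s := by
      have : ((Finset.univ : Finset (Fin n)) \ {r, s}).Nonempty := by
        rw [← Finset.card_pos]
        have h1 := Finset.le_card_sdiff {r, s} (Finset.univ : Finset (Fin n))
        have h2 : ({r, s} : Finset (Fin n)).card ≤ 2 := Finset.card_le_two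
        rw [Finset.card_univ, Fintype.card_fin] at h1
        omega
      obtain ⟨t, ht⟩ := this
      simp only [Finset.mem_sdiff, Finset.mem_univ, Finset.mem_insert, Finset.mem_singleton,
        true_and, not_or] at ht
      exact ⟨t, ht⟩
    have hpos : 0 < 2 ^ k := by positivity
    have hl1 : (l.take (2 ^ k)).length = 2 ^ k := by
      rw [List.length_take, hl, pow_succ]; omega
    have hl2 : (l.drop (2 ^ k)).length = 2 ^ k := by
      rw [List.length_drop, hl, pow_succ]; omega
    have hx1 : ∀ x ∈ l.take (2 ^ k), x ∈ J := fun x hx' => hx x (List.mem_of_mem_take hx')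
    have hx2 : ∀ x ∈ l.drop (2 ^ k), x ∈ J := fun x hx' => hx x (List.mem_of_mem_drop hx')
    have hm1 := el_mem (n := n) (Ne.symm ht.1) (prod_mem (J := J) (by
      intro h0; rw [h0] at hl1; exact absurd hpos (by rw [← hl1]; exact lt_irrefl 0)) hx1)
    have hm2 := el_mem (n := n) ht.2 (prod_mem (J := J) (by
      intro h0; rw [h0] at hl2; exact absurd hpos (by rw [← hl2]; exact lt_irrefl 0)) hx2)
    have h1 := ih _ hl1 hx1 r t (Ne.symm ht.1) hm1
    have h2 := ih _ hl2 hx2 t s ht.2 hm2
    rw [derivedSeries_succ]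
    have h3 := Subgroup.commutator_mem_commutator h1 h2
    convert h3 using 1
    apply Subtype.ext
    apply Units.ext
    change _ = (1 + Matrix.single r t (l.take (2 ^ k)).prod) *
      (1 + Matrix.single t s (l.drop (2 ^ k)).prod) * (1 - Matrix.single r t (l.take (2 ^ k)).prod) *
      (1 - Matrix.single t s (l.drop (2 ^ k)).prod)
    rw [single_comm h (Ne.symm ht.1) ht.2, List.prod_take_mul_prod_drop]
    rfl

theorem pow_le_span (J : Ideal R) (m : ℕ) :
    J ^ m ≤ Ideal.span {x | ∃ l : List R, l.length = m ∧ (∀ y ∈ l, y ∈ J) ∧ l.prod = x} := by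
  induction m with
  | zero =>
    rw [pow_zero, Ideal.one_eq_top]
    intro x _
    have h1 : (1 : R) ∈ Ideal.span {x | ∃ l : List R, l.length = 0 ∧ (∀ y ∈ l, y ∈ J) ∧
        l.prod = x} := Ideal.subset_span ⟨[], rfl, by simp, rfl⟩
    have h2 := Ideal.mul_mem_left _ x h1
    rwa [mul_one] at h2
  | succ m ih =>
    rw [pow_succ]
    refine (Ideal.mul_mono_left ih).trans ?_
    rw [Ideal.mul_le]
    intro r hr s hs
    refine Submodule.span_induction (p := fun r _ => r * s ∈ _) ?_ ?_ ?_ ?_ hr
    · rintro _ ⟨l, hl, hlJ, rfl⟩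
      refine Ideal.subset_span ⟨s :: l, by simp [hl], ?_, by rw [List.prod_cons, mul_comm]⟩
      intro y hy
      rcases List.mem_cons.1 hy with rfl | hy
      · exact hs
      · exact hlJ y hy
    · rw [zero_mul]; exact Ideal.zero_mem _
    · intro x y _ _ hx hy
      rw [add_mul]; exact Ideal.add_mem _ hx hy
    · intro a x _ hx
      rw [smul_eq_mul, mul_assoc]; exact Ideal.mul_mem_left _ _ hx

theorem nilpotent_of_solvable (hn : 3 ≤ n) (h : Group.IsSolvable (Cong n J)) : IsNilpotent J := by
  obtain ⟨k, hk⟩ := (Group.isSolvable_def _).1 h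
  refine ⟨2 ^ k, ?_⟩
  rw [Ideal.zero_eq_bot, ← le_bot_iff]
  refine (pow_le_span J _).trans ?_
  rw [Ideal.span_le]
  rintro _ ⟨l, hl, hlJ, rfl⟩
  have h01 : (⟨0, by omega⟩ : Fin n) ≠ ⟨1, by omega⟩ := by simp [Fin.ext_iff]
  have hne : l ≠ [] := by
    intro h0; rw [h0] at hl; exact absurd (show 0 < 2 ^ k by positivity) (by rw [← hl]; exact lt_irrefl 0)
  have hm := el_mem (n := n) h01 (prod_mem (J := J) hne hlJ)
  have h1 := el_mem_derived hn k l hl hlJ _ _ h01 hm
  rw [hk, Subgroup.mem_bot] at h1
  have h2 : (1 + Matrix.single (⟨0, by omega⟩ : Fin n) ⟨1, by omega⟩ l.prod :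
      Matrix (Fin n) (Fin n) R) = 1 := congrArg (fun g : Cong n J => g.1.val) h1
  have h4 := congrFun (congrFun h2 ⟨0, by omega⟩) ⟨1, by omega⟩
  rw [Matrix.add_apply, Matrix.single_apply_same, add_eq_left] at h4
  exact h4

/-! ### nilpotent ideals give soluble groups -/

theorem comm_mem {I I' : Ideal R} {A B : GL (Fin n) R} (hA : A ∈ Cong n I) (hB : B ∈ Cong n I') :
    ⁅A, B⁆ ∈ Cong n (I * I') := by
  rw [mem_cong] at hA hB
  rw [Cong, MonoidHom.mem_ker, map_commutatorElement, commutatorElement_eq_one_iff_mul_comm]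
  set f := Ideal.Quotient.mk (I * I') with hf
  set a : Matrix (Fin n) (Fin n) R := (A : Matrix (Fin n) (Fin n) R) - 1 with ha
  set b : Matrix (Fin n) (Fin n) R := (B : Matrix (Fin n) (Fin n) R) - 1 with hb
  have hab : (a * b).map f = 0 := by
    ext i j
    rw [Matrix.map_apply, Matrix.mul_apply, Matrix.zero_apply, Ideal.Quotient.eq_zero_iff_mem]
    exact Ideal.sum_mem _ fun k _ => Ideal.mul_mem_mul (hA i k) (hB k j)
  have hba : (b * a).map f = 0 := by
    ext i j
    rw [Matrix.map_apply, Matrix.mul_apply, Matrix.zero_apply, Ideal.Quotient.eq_zero_iff_mem]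
    exact Ideal.sum_mem _ fun k _ => by
      rw [mul_comm (b i k) (a k j)]; exact Ideal.mul_mem_mul (hA k j) (hB i k)
  have hA' : (A : Matrix (Fin n) (Fin n) R) = 1 + a := by rw [ha]; abel
  have hB' : (B : Matrix (Fin n) (Fin n) R) = 1 + b := by rw [hb]; abel
  apply Units.ext
  change (A : Matrix (Fin n) (Fin n) R).map f * (B : Matrix (Fin n) (Fin n) R).map f =
    (B : Matrix (Fin n) (Fin n) R).map f * (A : Matrix (Fin n) (Fin n) R).map f
  have e1 : ((A : Matrix (Fin n) (Fin n) R) * B).map f = ((B : Matrix (Fin n) (Fin n) R) * A).map f := by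
    have h1 : (A : Matrix (Fin n) (Fin n) R) * B = 1 + a + b + a * b := by
      rw [hA', hB']; noncomm_ring
    have h2 : (B : Matrix (Fin n) (Fin n) R) * A = 1 + a + b + b * a := by
      rw [hA', hB']; noncomm_ring
    have e := fun X Y : Matrix (Fin n) (Fin n) R => Matrix.map_add f (map_add f) X Y
    rw [h1, h2, e (1 + a + b) (a * b), e (1 + a + b) (b * a), hab, hba]
  rw [Matrix.map_mul, Matrix.map_mul] at e1
  exact e1

theorem derived_le (k : ℕ) : ∀ g ∈ derivedSeries (Cong n J) k, (g : GL (Fin n) R) ∈ Cong n (J ^ 2 ^ k) := by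
  induction k with
  | zero =>
    intro g _
    rw [pow_zero, pow_one]
    exact g.2
  | succ k ih =>
    have h : derivedSeries (Cong n J) (k + 1) ≤
        (Cong n (J ^ 2 ^ (k + 1))).comap (Cong n J).subtype := by
      rw [derivedSeries_succ, Subgroup.commutator_le]
      intro a ha b hb
      rw [Subgroup.mem_comap, map_commutatorElement, pow_succ 2 k, mul_two, pow_add]
      exact comm_mem (ih a ha) (ih b hb)
    exact fun g hg => h hg

theorem solvable_of_nilpotent (h : IsNilpotent J) : Group.IsSolvable (Cong n J) := by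
  obtain ⟨m, hm⟩ := h
  refine (Group.isSolvable_def _).2 ⟨m, ?_⟩
  rw [Subgroup.eq_bot_iff_forall]
  intro g hg
  have h1 := (mem_cong _).1 (derived_le m g hg)
  have h2 : J ^ 2 ^ m = ⊥ := by
    have h3 : J ^ 2 ^ m ≤ J ^ m := Ideal.pow_le_pow_right (Nat.lt_two_pow_self).le
    rw [hm, Ideal.zero_eq_bot] at h3
    exact le_bot_iff.1 h3
  apply Subtype.ext
  apply Units.ext
  ext i j
  have h3 := h1 i j
  rw [h2, Ideal.mem_bot, Matrix.sub_apply, sub_eq_zero] at h3
  exact h3

end general

/-! ### ideals of bounded nil index in characteristic `p` -/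

section char

variable {p : ℕ} (hp : p.Prime) {R : Type} [CommRing R] [CharP R p] {J : Ideal R}
  (hJ : ∀ u ∈ J, u ^ p = 0)

include hp hJ

theorem entries_pow {n : ℕ} (A : Matrix (Fin n) (Fin n) R) (hA : ∀ i j, A i j ∈ J) :
    A ^ (n * p) = 0 := by
  have : Fact p.Prime := ⟨hp⟩
  set χ := A.charpoly with hχ
  set P := χ - Polynomial.X ^ n with hP
  have hco : ∀ k, P.coeff k ∈ J := by
    intro k
    have h1 : (A.map (Ideal.Quotient.mk J)) = 0 := by
      ext i j; exact Ideal.Quotient.eq_zero_iff_mem.2 (hA i j)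
    have h2 : χ.map (Ideal.Quotient.mk J) = Polynomial.X ^ n := by
      rw [hχ, ← Matrix.charpoly_map, h1]
      simp
    have h3 : P.map (Ideal.Quotient.mk J) = 0 := by
      rw [hP, Polynomial.map_sub, h2, Polynomial.map_pow, Polynomial.map_X, sub_self]
    have h4 := congrArg (fun q => Polynomial.coeff q k) h3
    rw [← Ideal.Quotient.eq_zero_iff_mem]
    simpa [Polynomial.coeff_map] using h4
  have hPp : P ^ p = 0 := by
    rw [← Polynomial.map_frobenius_expand p]
    apply Polynomial.ext
    intro k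
    rw [Polynomial.coeff_map, Polynomial.coeff_expand hp.pos, Polynomial.coeff_zero]
    split_ifs
    · rw [frobenius_def]
      exact hJ _ (hco _)
    · exact map_zero _
  have h5 : Polynomial.aeval A P = -(A ^ n) := by
    rw [hP, map_sub, hχ, Matrix.aeval_self_charpoly, map_pow, Polynomial.aeval_X, zero_sub]
  have h6 := congrArg (Polynomial.aeval A) hPp
  rw [map_pow, h5, map_zero, neg_pow, ← pow_mul] at h6
  rcases neg_one_pow_eq_or (Matrix (Fin n) (Fin n) R) p with h7 | h7
  · rwa [h7, one_mul] at h6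
  · rwa [h7, neg_one_mul, neg_eq_zero] at h6

theorem exponent {n k : ℕ} (hn : 1 ≤ n) (hk : n * p ≤ p ^ k) (g : Cong n J) : g ^ (p ^ k) = 1 := by
  have : Fact p.Prime := ⟨hp⟩
  have : Nonempty (Fin n) := ⟨⟨0, by omega⟩⟩
  have : CharP (Matrix (Fin n) (Fin n) R) p := Matrix.charP p
  set A : Matrix (Fin n) (Fin n) R := (g.1 : Matrix (Fin n) (Fin n) R) - 1 with hA
  have h1 : A ^ (n * p) = 0 := entries_pow hp hJ A ((mem_cong _).1 g.2)
  have h2 : A ^ (p ^ k) = 0 := pow_eq_zero_of_le hk h1
  have h3 : (g.1 : Matrix (Fin n) (Fin n) R) = 1 + A := by rw [hA]; abel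
  apply Subtype.ext
  apply Units.ext
  rw [Subgroup.coe_pow, Units.val_pow_eq_pow_val, h3,
    add_pow_char_pow_of_commute p k (Commute.one_left A), one_pow, h2, add_zero]
  rfl

theorem locally_finite {n : ℕ} (hn : 1 ≤ n) (s : Finset (Cong n J)) :
    Finite (Subgroup.closure (s : Set (Cong n J))) := by
  have : Fact p.Prime := ⟨hp⟩
  let _ : Algebra (ZMod p) R := ZMod.algebra R p
  set E : Set R := ⋃ g ∈ s, ⋃ i, ⋃ j, {((g.1 : Matrix (Fin n) (Fin n) R) - 1) i j} with hE
  have hEf : E.Finite := by
    rw [hE]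
    refine Set.Finite.biUnion s.finite_toSet fun g _ => ?_
    exact Set.finite_iUnion fun i => Set.finite_iUnion fun j => Set.finite_singleton _
  have hfg : (Subalgebra.toSubmodule (Algebra.adjoin (ZMod p) E)).FG := by
    refine fg_adjoin_of_finite hEf fun x hx => ?_
    simp only [hE, Set.mem_iUnion, Set.mem_singleton_iff] at hx
    obtain ⟨g, -, i, j, rfl⟩ := hx
    have h1 : (((g.1 : Matrix (Fin n) (Fin n) R) - 1) i j) ^ p = 0 :=
      hJ _ ((mem_cong _).1 g.2 i j)
    exact ⟨Polynomial.X ^ p, Polynomial.monic_X_pow p, by rw [Polynomial.eval₂_X_pow]; exact h1⟩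
  have hfin : Finite (Algebra.adjoin (ZMod p) E) := by
    have h1 : Module.Finite (ZMod p) (Algebra.adjoin (ZMod p) E) := Module.Finite.iff_fg.2 hfg
    exact Module.finite_of_finite (ZMod p)
  let H : Subgroup (Cong n J) :=
    { carrier := {g | ∀ i j, (g.1 : Matrix (Fin n) (Fin n) R) i j ∈ Algebra.adjoin (ZMod p) E}
      one_mem' := by
        intro i j
        change (1 : Matrix (Fin n) (Fin n) R) i j ∈ _
        rw [Matrix.one_apply]
        split_ifs
        · exact Subalgebra.one_mem _
        · exact Subalgebra.zero_mem _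
      mul_mem' := by
        intro a b ha hb i j
        change ((a.1 : Matrix (Fin n) (Fin n) R) * (b.1 : Matrix (Fin n) (Fin n) R)) i j ∈ _
        rw [Matrix.mul_apply]
        exact Subalgebra.sum_mem _ fun l _ => Subalgebra.mul_mem _ (ha i l) (hb l j)
      inv_mem' := by
        intro a ha
        have h1 : a⁻¹ = a ^ (p ^ n - 1) := by
          have h2 : a ^ (p ^ n - 1) * a = 1 := by
            rw [← pow_succ, Nat.sub_add_cancel (Nat.one_le_pow _ _ hp.pos)]
            exact exponent hp hJ hn (Pool.Agent.Y113.TA.le_pow hp hn) a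
          exact (eq_inv_of_mul_eq_one_left h2).symm
        have h3 : ∀ k : ℕ, ∀ i j, ((a ^ k).1 : Matrix (Fin n) (Fin n) R) i j ∈ Algebra.adjoin (ZMod p) E := by
          intro k
          induction k with
          | zero =>
            intro i j
            rw [pow_zero]
            change (1 : Matrix (Fin n) (Fin n) R) i j ∈ _
            rw [Matrix.one_apply]
            split_ifs
            · exact Subalgebra.one_mem _
            · exact Subalgebra.zero_mem _
          | succ k ih =>
            intro i j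
            rw [pow_succ]
            change (((a ^ k).1 : Matrix (Fin n) (Fin n) R) * (a.1 : Matrix (Fin n) (Fin n) R)) i j ∈ _
            rw [Matrix.mul_apply]
            exact Subalgebra.sum_mem _ fun l _ => Subalgebra.mul_mem _ (ih i l) (ha l j)
        rw [h1]
        exact h3 _ }
  have hHf : Finite H := by
    refine Finite.of_injective (fun g : H => fun i j => (⟨((g.1).1 : Matrix (Fin n) (Fin n) R) i j, g.2 i j⟩ :
      Algebra.adjoin (ZMod p) E)) ?_
    intro g g' hg
    apply Subtype.ext
    apply Subtype.ext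
    apply Units.ext
    ext1 i j
    exact congrArg Subtype.val (congrFun (congrFun hg i) j)
  have hle : Subgroup.closure (s : Set (Cong n J)) ≤ H := by
    rw [Subgroup.closure_le]
    intro g hg i j
    have h1 : ((g.1 : Matrix (Fin n) (Fin n) R) - 1) i j ∈ Algebra.adjoin (ZMod p) E := by
      apply Algebra.subset_adjoin
      simp only [hE, Set.mem_iUnion, Set.mem_singleton_iff]
      exact ⟨g, hg, i, j, rfl⟩
    have h2 : (1 : Matrix (Fin n) (Fin n) R) i j ∈ Algebra.adjoin (ZMod p) E := by
      rw [Matrix.one_apply]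
      split_ifs
      · exact Subalgebra.one_mem _
      · exact Subalgebra.zero_mem _
    have h3 := Subalgebra.add_mem _ h1 h2
    rwa [Matrix.sub_apply, sub_add_cancel] at h3
  exact Finite.of_injective (Subgroup.inclusion hle) (Subgroup.inclusion_injective hle)

end char

section top

variable {R : Type} [CommRing R] [TopologicalSpace R] [IsTopologicalRing R] {J : Ideal R}

theorem isClosed_cong (n : ℕ) (hJ : IsClosed (J : Set R)) : IsClosed (Cong n J : Set (GL (Fin n) R)) := by
  have h : (Cong n J : Set (GL (Fin n) R)) = ⋂ i, ⋂ j,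
      (fun g : GL (Fin n) R => ((g : Matrix (Fin n) (Fin n) R) - 1) i j) ⁻¹' (J : Set R) := by
    ext g
    simp only [Set.mem_iInter]
    exact mem_cong g
  rw [h]
  refine isClosed_iInter fun i => isClosed_iInter fun j => hJ.preimage ?_
  have h1 : Continuous fun g : GL (Fin n) R => (g : Matrix (Fin n) (Fin n) R) :=
    Units.continuous_val
  have h2 : Continuous fun M : Matrix (Fin n) (Fin n) R => M i j := continuous_id.matrix_elem i j
  exact h2.comp (h1.sub continuous_const)

theorem continuous_val_cong (n : ℕ) :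
    Continuous fun g : Cong n J => ((g.1 : GL (Fin n) R) : Matrix (Fin n) (Fin n) R) :=
  Units.continuous_val.comp continuous_subtype_val

theorem injective_val_cong (n : ℕ) : Function.Injective
    fun g : Cong n J => ((g.1 : GL (Fin n) R) : Matrix (Fin n) (Fin n) R) :=
  fun _ _ h => Subtype.ext (Units.ext h)

variable [CompactSpace R] [T2Space R] [TotallyDisconnectedSpace R]

theorem compact_cong (n : ℕ) (hJ : IsClosed (J : Set R)) : CompactSpace (Cong n J) := by
  have h1 : CompactSpace (Matrix (Fin n) (Fin n) R) :=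
    inferInstanceAs (CompactSpace (Fin n → Fin n → R))
  have h2 : CompactSpace (GL (Fin n) R) := Pool.Agent.Y113.TA.compact_GL' n
  exact isCompact_iff_compactSpace.1 (isClosed_cong n hJ).isCompact

theorem isProP_cong {p : ℕ} (hp : p.Prime) [CharP R p] (hJp : ∀ u ∈ J, u ^ p = 0)
    (hJ : IsClosed (J : Set R)) {n : ℕ} (hn : 1 ≤ n) : IsProP p (Cong n J) := by
  have := compact_cong n hJ
  have h2 : T2Space (Matrix (Fin n) (Fin n) R) := inferInstanceAs (T2Space (Fin n → Fin n → R))
  refine ⟨this, T2Space.of_injective_continuous (injective_val_cong n) (continuous_val_cong n),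
    ⟨?_⟩, ?_⟩
  · apply isTotallyDisconnected_of_image (f := fun g : Cong n J =>
      ((g.1 : GL (Fin n) R) : Matrix (Fin n) (Fin n) R))
      (continuous_val_cong n).continuousOn (injective_val_cong n)
    have h : TotallyDisconnectedSpace (Matrix (Fin n) (Fin n) R) :=
      inferInstanceAs (TotallyDisconnectedSpace (Fin n → Fin n → R))
    exact isTotallyDisconnected_of_totallyDisconnectedSpace _
  · intro N hN hNo
    have h1 : N.FiniteIndex := by
      have h2 : Finite (Cong n J ⧸ N) := Subgroup.quotient_finite_of_isOpen N hNo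
      exact Subgroup.finiteIndex_of_finite_quotient
    have h2 : IsPGroup p (Cong n J ⧸ N) := by
      intro x
      refine ⟨n, ?_⟩
      obtain ⟨g, rfl⟩ := QuotientGroup.mk_surjective x
      rw [← QuotientGroup.mk_pow,
        exponent hp hJp hn (Pool.Agent.Y113.TA.le_pow hp hn) g, QuotientGroup.mk_one]
    have : Fact p.Prime := ⟨hp⟩
    obtain ⟨k, hk⟩ := (IsPGroup.iff_card).1 h2
    exact ⟨k, hk⟩

theorem isMatrixProP_cong {p : ℕ} (hp : p.Prime) [CharP R p] (hJp : ∀ u ∈ J, u ^ p = 0)
    (hJ : IsClosed (J : Set R)) {n : ℕ} (hn : 1 ≤ n) : IsMatrixProP p n (Cong n J) := by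
  have := compact_cong n hJ
  have h2 : T2Space (Matrix (Fin n) (Fin n) R) := inferInstanceAs (T2Space (Fin n → Fin n → R))
  exact ⟨isProP_cong hp hJp hJ hn, R, inferInstance, inferInstance, inferInstance, inferInstance,
    inferInstance, inferInstance, (Cong n J).subtype, (continuous_val_cong n).isClosedEmbedding
      (injective_val_cong n)⟩

theorem exponent_var {p : ℕ} (hp : p.Prime) [CharP R p] (hJp : ∀ u ∈ J, u ^ p = 0)
    (hJ : IsClosed (J : Set R)) {n : ℕ} (hn : 1 ≤ n) {k : ℕ} (hk : n * p ≤ p ^ k)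
    (H : Type) [Group H] [TopologicalSpace H] [IsTopologicalGroup H]
    (hH : InVar p (Cong n J) H) (x : H) : x ^ (p ^ k) = 1 := by
  have h1 := hH (lawVariety hp {(FreeGroup.of 0) ^ (p ^ k)}) ⟨isProP_cong hp hJp hJ hn, by
    intro w hw φ
    rw [Set.mem_singleton_iff] at hw
    rw [hw, map_pow]
    exact exponent hp hJp hn hk _⟩
  have h2 := h1.2 _ rfl (FreeGroup.lift fun _ => x)
  rwa [map_pow, FreeGroup.lift_apply_of] at h2

theorem gamma_not_in {p : ℕ} (hp : p.Prime) [CharP R p] (hJp : ∀ u ∈ J, u ^ p = 0)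
    (hJ : IsClosed (J : Set R)) {n : ℕ} (hn : 1 ≤ n) : ¬ InVar p (Cong n J) (GammaP p) := by
  intro hG
  have h2 := exponent_var hp hJp hJ hn (Pool.Agent.Y113.TA.le_pow hp hn) (GammaP p) hG
    ⟨upper p * lower p, mem_gamma p⟩
  exact gamma_pow hp n (congrArg Subtype.val h2)

end top

/-! ### an ideal which is not nilpotent -/

section example_ring

open Pool.Agent.Y113.TA

variable {p : ℕ} (hp : p.Prime)

/-- The radical of the product ring `RR`. -/
noncomputable def JJ : Ideal (RR hp) := ⨅ N, RingHom.ker (au hp N)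

theorem mem_JJ (x : RR hp) : x ∈ JJ hp ↔ ∀ N, au hp N x = 0 := by
  rw [JJ, Ideal.mem_iInf]
  exact Iff.rfl

theorem isClosed_JJ : IsClosed (JJ hp : Set (RR hp)) := by
  have h : (JJ hp : Set (RR hp)) = ⋂ N, (fun x : RR hp => x N) ⁻¹' {x | (dat hp N).aug x = 0} := by
    ext x
    simp only [Set.mem_iInter]
    exact mem_JJ hp x
  rw [h]
  exact isClosed_iInter fun N => (isClosed_discrete _).preimage (continuous_apply N)

theorem list_prod_mem {R : Type} [CommRing R] {J : Ideal R} (l : List R) (h : ∀ x ∈ l, x ∈ J) :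
    l.prod ∈ J ^ l.length := by
  induction l with
  | nil => simp
  | cons a l ih =>
    rw [List.prod_cons, List.length_cons, pow_succ, mul_comm (J ^ l.length)]
    exact Ideal.mul_mem_mul (h a (by simp)) (ih fun x hx => h x (by simp [hx]))

theorem not_nilpotent_JJ : ¬ IsNilpotent (JJ hp) := by
  rintro ⟨m, hm⟩
  obtain ⟨l, hl, hx, -, hne⟩ := long_list hp m
  have h1 := list_prod_mem (J := JJ hp) l (fun x hx' => (mem_JJ hp x).2 (hx x hx'))
  rw [hl, hm, Ideal.zero_eq_bot, Ideal.mem_bot] at h1
  exact hne h1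

theorem cong_JJ (n : ℕ) : Cong n (JJ hp) = KK hp n := by
  ext g
  rw [mem_cong]
  constructor
  · intro h N i j
    have h1 := (mem_JJ hp _).1 (h i j) N
    rw [Matrix.sub_apply, map_sub, sub_eq_zero] at h1
    show au hp N ((g : Matrix (Fin n) (Fin n) (RR hp)) i j) = _
    rw [h1, Matrix.one_apply, Matrix.one_apply]
    split_ifs
    · rw [map_one]
    · rw [map_zero]
  · intro h i j
    rw [mem_JJ]
    intro N
    rw [Matrix.sub_apply, map_sub, h N i j, Matrix.one_apply, Matrix.one_apply]
    split_ifs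
    · rw [map_one, sub_self]
    · rw [map_zero, sub_self]

theorem not_solvable_two {n : ℕ} (hn : 2 ≤ n) (h2 : p ≠ 2) :
    ¬ Group.IsSolvable (Cong n (JJ hp)) := by
  rw [cong_JJ]
  exact not_solvable2 hp hn h2

end example_ring

/-- `G` is a pro-p group of `n × n` matrices all of whose finitely generated abstract subgroups
are finite, such that all groups in the variety of pro-p groups generated by `G` satisfy
`x ^ (p ^ k) = 1` if `n p ≤ p ^ k`, and `Γ_p` does not lie in this variety. -/
def BoundedExponentVariety (p n : ℕ) (G : Type) [Group G] [TopologicalSpace G]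
    [IsTopologicalGroup G] : Prop :=
  IsMatrixProP p n G ∧
  (∀ s : Finset G, Finite (Subgroup.closure (s : Set G))) ∧
  (∀ k : ℕ, n * p ≤ p ^ k → ∀ (H : Type) [Group H] [TopologicalSpace H]
    [IsTopologicalGroup H], InVar p G H → ∀ x : H, x ^ (p ^ k) = 1) ∧
  ¬ InVar p G (GammaP p)

/-- (A) For every commutative profinite ring `R` of prime characteristic `p`, every closed ideal
`J` with `u ^ p = 0` for all `u` in `J` and every `n ≥ 1`, the group `Cong n J` has all the
properties of `BoundedExponentVariety`. -/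
def PartA : Prop :=
  ∀ (p : ℕ), p.Prime → ∀ (R : Type) [CommRing R] [TopologicalSpace R] [IsTopologicalRing R]
    [CompactSpace R] [T2Space R] [TotallyDisconnectedSpace R] [CharP R p] (J : Ideal R),
    IsClosed (J : Set R) → (∀ u ∈ J, u ^ p = 0) → ∀ n : ℕ, 1 ≤ n →
      BoundedExponentVariety p n (Cong n J)

/-- (B) For every commutative ring `R`, every ideal `J` and all `n`: if `J` is nilpotent,
`Cong n J` is soluble; and for `n ≥ 3` `Cong n J` is soluble if and only if `J` is nilpotent. -/
def PartB : Prop :=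
  ∀ (R : Type) [CommRing R] (J : Ideal R) (n : ℕ),
    (IsNilpotent J → Group.IsSolvable (Cong n J)) ∧
    (3 ≤ n → (Group.IsSolvable (Cong n J) ↔ IsNilpotent J))

/-- (C) For every prime `p` there are `R`, `J` as in (A) such that `J` is not nilpotent, and, if
`p` is odd, `Cong n J` is not soluble for every `n ≥ 2`. -/
def PartC : Prop :=
  ∀ (p : ℕ), p.Prime → ∃ (R : Type) (_ : CommRing R) (_ : TopologicalSpace R)
    (_ : IsTopologicalRing R) (_ : CompactSpace R) (_ : T2Space R)
    (_ : TotallyDisconnectedSpace R) (_ : CharP R p) (J : Ideal R),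
    IsClosed (J : Set R) ∧ (∀ u ∈ J, u ^ p = 0) ∧ ¬ IsNilpotent J ∧
    (p ≠ 2 → ∀ n : ℕ, 2 ≤ n → ¬ Group.IsSolvable (Cong n J))

/-- Let `Cong n J` be the kernel of `GL_n(R) → GL_n(R / J)`. By (A), (B), (C) the groups
`Cong n J` with `n ≥ 3` and a closed ideal `J` of nil index at most `p` in a commutative profinite
ring of characteristic `p` violate the alternative of the question if and only if `J` is not
nilpotent, and there are such ideals for every prime `p`. -/
theorem result : PartA ∧ PartB ∧ PartC :=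
  ⟨fun _ hp _ _ _ _ _ _ _ _ _ hJ hJp _ hn => ⟨isMatrixProP_cong hp hJp hJ hn,
      locally_finite hp hJp hn, fun _ hk H _ _ _ hH x => exponent_var hp hJp hJ hn hk H hH x,
      gamma_not_in hp hJp hJ hn⟩,
    fun _ _ _ _ => ⟨solvable_of_nilpotent, fun hn =>
      ⟨nilpotent_of_solvable hn, solvable_of_nilpotent⟩⟩,
    fun _ hp => ⟨Pool.Agent.Y113.TA.RR hp, inferInstance, inferInstance, inferInstance,
      inferInstance, inferInstance, inferInstance, Pool.Agent.Y113.TA.charRR hp, JJ hp,
      isClosed_JJ hp, fun u hu => Pool.Agent.Y113.TA.pow_eq_zero hp ((mem_JJ hp u).1 hu),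
      not_nilpotent_JJ hp, fun h2 _ hn => not_solvable_two hp hn h2⟩⟩

end Pool.Agent.Results.MP_c0708e_al.CongruenceSubgroups
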